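import Pool.Agent.L7h28.HF.Stm

/-!
# Project HF (MP_b7f146_ag), part LB

Continuation of a piece of the curve at a zero of the discriminant.
-/

set_option autoImplicit false

noncomputable section

namespace Pool.Agent.L7h6.HF

open Set Filter Topology
open Pool.Agent.L7h28.HF

/-- Where the derivative in the first variable is not zero the equation can be solved for it. -/
theorem solve {g : ℝ → ℝ → ℝ} (hg : Continuous fun p : ℝ × ℝ => g p.1 p.2) {θ0 τ0 D : ℝ}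
    (h0 : g θ0 τ0 = 0) (hD : HasDerivAt (fun x => g x τ0) D θ0) (hne : D ≠ 0) {ε : ℝ}
    (hε : 0 < ε) : ∀ᶠ τ in 𝓝 τ0, ∃ θ, |θ - θ0| < ε ∧ g θ τ = 0 := by
  have hs := hasDerivAt_iff_tendsto_slope.1 hD
  have h1 : Tendsto (fun x => D * slope (fun x => g x τ0) θ0 x) (𝓝[≠] θ0) (𝓝 (D * D)) :=
    hs.const_mul D
  have h2 : ∀ᶠ x in 𝓝[≠] θ0, 0 < D * slope (fun x => g x τ0) θ0 x :=
    h1.eventually_const_lt (mul_self_pos.2 hne)
  rw [eventually_nhdsWithin_iff, Metric.eventually_nhds_iff] at h2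
  obtain ⟨δ, hδ, h3⟩ := h2
  set r : ℝ := min ε δ / 2 with hr
  have hr0 : 0 < r := by
    have := lt_min hε hδ
    rw [hr]; linarith
  have hr1 : r < ε := by
    have := min_le_left ε δ
    have h := lt_min hε hδ
    rw [hr]; linarith
  have hr2 : r < δ := by
    have := min_le_right ε δ
    have h := lt_min hε hδ
    rw [hr]; linarith
  have hp : 0 < D * g (θ0 + r) τ0 := by
    have h := h3 (y := θ0 + r) (by rw [Real.dist_eq]; simpa [abs_of_pos hr0] using hr2)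
      (by simp; exact hr0.ne')
    rw [slope_def_field] at h
    simp only [h0, sub_zero, add_sub_cancel_left] at h
    have : D * (g (θ0 + r) τ0 / r) = D * g (θ0 + r) τ0 / r := by ring
    rw [this] at h
    exact (div_pos_iff_of_pos_right hr0).1 h
  have hm : D * g (θ0 - r) τ0 < 0 := by
    have h := h3 (y := θ0 - r) (by rw [Real.dist_eq]; simpa [abs_of_pos hr0] using hr2)
      (by simp; exact hr0.ne')
    rw [slope_def_field] at h
    simp only [h0, sub_zero] at h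
    have e : θ0 - r - θ0 = -r := by ring
    rw [e] at h
    have : D * (g (θ0 - r) τ0 / -r) = -(D * g (θ0 - r) τ0) / r := by
      rw [div_neg]; ring
    rw [this] at h
    have := (div_pos_iff_of_pos_right hr0).1 h
    linarith
  have c1 : ∀ x : ℝ, Continuous fun τ => D * g x τ := fun x =>
    continuous_const.mul (hg.comp (by fun_prop : Continuous fun τ : ℝ => (x, τ)))
  have c2 : ∀ τ : ℝ, Continuous fun x => D * g x τ := fun τ =>
    continuous_const.mul (hg.comp (by fun_prop : Continuous fun x : ℝ => (x, τ)))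
  filter_upwards [(c1 (θ0 + r)).continuousAt.eventually_const_lt hp,
    (c1 (θ0 - r)).continuousAt.eventually_lt_const hm] with τ t1 t2
  have hab : θ0 - r ≤ θ0 + r := by linarith
  have := intermediate_value_Icc hab (c2 τ).continuousOn
  obtain ⟨θ, hθ, h4⟩ := this ⟨t2.le, t1.le⟩
  refine ⟨θ, ?_, ?_⟩
  · rw [abs_lt]
    constructor
    · linarith [hθ.1]
    · linarith [hθ.2]
  · exact (mul_eq_zero.1 h4).resolve_left hne

theorem continuous_frm (n : ℕ) (h : ℕ → ℝ) : Continuous (frm n h) := by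
  unfold frm; fun_prop

theorem differentiable_frm (n : ℕ) (h : ℕ → ℝ) : Differentiable ℝ (frm n h) := by
  unfold frm; fun_prop

theorem continuous_G (a : ℝ) (b c : ℕ → ℝ) : Continuous fun p : ℝ × ℝ => G a b c p.1 p.2 := by
  have h1 := continuous_frm 4 b
  have h2 := continuous_frm 8 c
  unfold G; fun_prop

theorem differentiable_G (a : ℝ) (b c : ℕ → ℝ) (τ : ℝ) :
    Differentiable ℝ fun x : ℝ => G a b c x τ := by
  have h1 := differentiable_frm 4 b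
  have h2 := differentiable_frm 8 c
  unfold G; fun_prop

/-- the derivative in the second variable -/
theorem deriv_tau (a : ℝ) (b c : ℕ → ℝ) (θ τ : ℝ) :
    HasDerivAt (fun x : ℝ => G a b c θ x) (4 * τ ^ 3 * (2 * a * τ ^ 4 + frm 4 b θ)) τ := by
  unfold G
  have h1 : HasDerivAt (fun x : ℝ => a * x ^ 8) (a * ((8 : ℕ) * τ ^ 7)) τ :=
    (hasDerivAt_pow 8 τ).const_mul a
  have h2 : HasDerivAt (fun x : ℝ => frm 4 b θ * x ^ 4) (frm 4 b θ * ((4 : ℕ) * τ ^ 3)) τ :=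
    (hasDerivAt_pow 4 τ).const_mul _
  have h3 := (h1.add h2).add_const (frm 8 c θ)
  refine h3.congr_deriv ?_
  push_cast; ring

/-- zeros of `G` near a point of a piece lie in the piece -/
theorem near {a : ℝ} {b c : ℕ → ℝ} {K : Set (ℝ × ℝ)} (hK : Pc a b c K) {θ0 τ0 : ℝ}
    (h : (θ0, τ0) ∈ K) : ∃ ρ : ℝ, 0 < ρ ∧ ∀ θ τ, |θ - θ0| < ρ → |τ - τ0| < ρ → G a b c θ τ = 0 →
      (θ, τ) ∈ K := by
  have h1 : (θ0, τ0) ∈ ({p : ℝ × ℝ | G a b c p.1 p.2 = 0} \ K)ᶜ := fun h' => h'.2 h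
  obtain ⟨ρ, hρ, h2⟩ := Metric.isOpen_iff.1 hK.rest.isOpen_compl _ h1
  refine ⟨ρ, hρ, fun θ τ t1 t2 t3 => ?_⟩
  by_contra hcon
  have h3 : (θ, τ) ∈ Metric.ball (θ0, τ0) ρ := by
    rw [Metric.mem_ball, Prod.dist_eq]
    exact max_lt (by rw [Real.dist_eq]; exact t1) (by rw [Real.dist_eq]; exact t2)
  exact h2 h3 ⟨t3, hcon⟩

attribute [local irreducible] G frm in
/-- at a point with vertical derivative zero the curve can be followed in the direction of `τ` -/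
theorem follow {a : ℝ} {b c : ℕ → ℝ} {K : Set (ℝ × ℝ)} (hNS : NS a b c) (hK : Pc a b c K)
    {θ0 τ0 : ℝ} (h : (θ0, τ0) ∈ K) (hz : 4 * τ0 ^ 3 * (2 * a * τ0 ^ 4 + frm 4 b θ0) = 0) {ε : ℝ}
    (hε : 0 < ε) : ∀ᶠ τ in 𝓝 τ0, ∃ θ, |θ - θ0| < ε ∧ |τ - τ0| < ε ∧ G a b c θ τ = 0 ∧
      (θ, τ) ∈ K := by
  obtain ⟨ρ, hρ, h1⟩ := near hK h
  have h0 : G a b c θ0 τ0 = 0 := hK.sub _ h
  have hd := (differentiable_G a b c τ0 θ0).hasDerivAt
  have hne : deriv (fun x : ℝ => G a b c x τ0) θ0 ≠ 0 := by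
    intro hcon
    rw [hcon] at hd
    have h5 := deriv_tau a b c θ0 τ0
    rw [hz] at h5
    exact hNS θ0 τ0 h0 hd h5
  have hm : 0 < min ε ρ := lt_min hε hρ
  have h2 := solve (g := G a b c) (continuous_G a b c) h0 hd hne hm
  have h3 : ∀ᶠ τ in 𝓝 τ0, |τ - τ0| < min ε ρ := by
    have := Metric.ball_mem_nhds τ0 hm
    filter_upwards [this] with τ hτ
    rwa [Metric.mem_ball, Real.dist_eq] at hτ
  filter_upwards [h2, h3] with τ t2 t3
  obtain ⟨θ, t4, t5⟩ := t2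
  exact ⟨θ, t4.trans_le (min_le_left _ _), t3.trans_le (min_le_left _ _), t5,
    h1 θ τ (t4.trans_le (min_le_right _ _)) (t3.trans_le (min_le_right _ _)) t5⟩

attribute [local irreducible] G frm in
/-- **[LB]** -/
theorem s_LB : S_LB := by
  intro a b c K ha hNS hK θ0 τ0 h hτ hdsc ε hε
  have h0 : G a b c θ0 τ0 = 0 := hK.sub _ h
  have h0' : a * τ0 ^ 8 + frm 4 b θ0 * τ0 ^ 4 + frm 8 c θ0 = 0 := by rwa [G] at h0
  have hdsc' : frm 4 b θ0 ^ 2 - 4 * a * frm 8 c θ0 = 0 := by rwa [dsc] at hdsc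
  have hB : 2 * a * τ0 ^ 4 + frm 4 b θ0 = 0 := by
    have : (2 * a * τ0 ^ 4 + frm 4 b θ0) ^ 2 = 0 := by
      linear_combination 4 * a * h0' + hdsc'
    exact (pow_eq_zero_iff (two_ne_zero)).1 this
  have h1 := follow hNS hK h (by rw [hB, mul_zero]) hε
  have h2 : ∀ᶠ τ in 𝓝[>] τ0, ∃ θ, |θ - θ0| < ε ∧ |τ - τ0| < ε ∧ G a b c θ τ = 0 ∧ (θ, τ) ∈ K :=
    h1.filter_mono nhdsWithin_le_nhds
  obtain ⟨τ, ⟨θ, t1, t2, t3, t4⟩, t5⟩ := (h2.and self_mem_nhdsWithin).exists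
  refine ⟨θ, τ, ?_, t1, t2, t4⟩
  intro hθ
  rw [hθ] at t3
  have t6 : τ0 < τ := t5
  have t7 : a * τ ^ 8 + frm 4 b θ0 * τ ^ 4 + frm 8 c θ0 = 0 := by rwa [G] at t3
  have t8 : a * (τ ^ 4 - τ0 ^ 4) ^ 2 = 0 := by
    linear_combination t7 - h0' - (τ ^ 4 - τ0 ^ 4) * hB
  have t9 : τ0 ^ 4 < τ ^ 4 := pow_lt_pow_left₀ t6 hτ.le (by norm_num)
  have : (τ ^ 4 - τ0 ^ 4) ^ 2 ≠ 0 := pow_ne_zero 2 (by linarith)
  exact (mul_ne_zero ha this) t8

end Pool.Agent.L7h6.HF
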